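import Pool.Agent.U373.KR.PosK

/-!
# Sets of k-recurrence which are not sets of recurrence for k commuting transformations

We settle Q2 in the negative for every `k ≥ 2`. For each such `k` the explicit set
`S_k = { ∑_{i < (k-1)M} s_i · 6561^(i²) : s_i ∈ {0,1,3,4}, s_i ∈ {0,1} unless (k-1) ∣ i, and the
number of blocks b < M with digits (4,1,1,...,1) on (k-1)b, ..., (k-1)b + k - 2 is not divisible
by 3 }` is a set of `k`-recurrence, but for some commuting invertible measure preserving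
`T₁, ..., T_k` and some `A` of positive measure `μ (A ∩ T₁ⁿ A ∩ ... ∩ T_kⁿ A) = 0` for every
(nonzero) `n ∈ S_k`.
-/

open MeasureTheory

universe u

namespace Pool.Agent.Results.MP_74ad1e_an.CommutingTuplesFail

/-- The integer powers of an invertible bimeasurable map, as bijections. -/
def zpw {X : Type u} [MeasurableSpace X] (T : X ≃ᵐ X) (n : ℤ) : Equiv.Perm X :=
  (T.toEquiv : Equiv.Perm X) ^ n

/-- Sets of `k`-recurrence. -/
def IsSetOfRecurrence (k : ℕ) (R : Set ℤ) : Prop :=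
  ∀ (X : Type u) [MeasurableSpace X] (μ : Measure X) [IsProbabilityMeasure μ] (T : X ≃ᵐ X),
    MeasurePreserving T μ μ → ∀ A : Set X, MeasurableSet A → 0 < μ A →
      ∃ n ∈ R, n ≠ 0 ∧ 0 < μ (⋂ j ∈ Finset.range (k + 1), (zpw T ((j : ℤ) * n)) '' A)

/-- The digits of the block `b` of length `k - 1` are `4, 1, ..., 1`. -/
def FullBlock (k : ℕ) (s : ℕ → ℕ) (b : ℕ) : Prop :=
  s ((k - 1) * b) = 4 ∧ ∀ l, 1 ≤ l → l < k - 1 → s ((k - 1) * b + l) = 1

open Classical in
/-- The explicit set. -/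
def digitSet (k : ℕ) : Set ℤ :=
  {n | ∃ (M : ℕ) (s : ℕ → ℕ), (∀ i, s i = 0 ∨ s i = 1 ∨ s i = 3 ∨ s i = 4) ∧
    (∀ i, ¬ (k - 1) ∣ i → s i ≤ 1) ∧
    ¬ 3 ∣ ((Finset.range M).filter (fun b => FullBlock k s b)).card ∧
    n = ((∑ i ∈ Finset.range ((k - 1) * M), s i * 6561 ^ (i ^ 2) : ℕ) : ℤ)}

open Pool.Agent.U373.KR

lemma act_iff (r : ℕ) (s : ℕ → ℕ) (b : ℕ) : FullBlock (r + 2) s b ↔ Act r s b := by
  show (s ((r + 1) * b) = 4 ∧ ∀ l, 1 ≤ l → l < r + 1 → s ((r + 1) * b + l) = 1) ↔ Act r s b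
  unfold Act
  refine and_congr Iff.rfl ⟨fun h l hl => ?_, fun h l h1 h2 => ?_⟩
  · rw [add_assoc]
    exact h (l + 1) (by omega) (by omega)
  · obtain ⟨l', rfl⟩ : ∃ l', l = l' + 1 := ⟨l - 1, by omega⟩
    rw [← add_assoc]
    exact h l' (by omega)

lemma mem_digitSet (r : ℕ) (n : ℤ) : n ∈ digitSet (r + 2) ↔ ∃ N : ℕ, InS r N ∧ n = N := by
  classical
  have hcard : ∀ (M : ℕ) (s : ℕ → ℕ),
      ((Finset.range M).filter (fun b => FullBlock (r + 2) s b)).card
        = ((Finset.range M).filter (fun b => Act r s b)).card := by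
    intro M s
    congr 1
    ext b
    simp only [Finset.mem_filter, act_iff]
  constructor
  · rintro ⟨M, s, h1, h2, h3, h4⟩
    refine ⟨_, ⟨M, s, h1, h2, ?_, rfl⟩, h4⟩
    rw [← hcard]
    convert h3
  · rintro ⟨N, ⟨M, s, h1, h2, h3, h4⟩, h5⟩
    refine ⟨M, s, h1, h2, ?_, by rw [h5, h4]; rfl⟩
    rw [← hcard] at h3
    convert h3

lemma inS_pos {r N : ℕ} (h : InS r N) : 0 < N := by
  obtain ⟨M, s, _, _, h3, h4⟩ := h
  rcases Nat.eq_zero_or_pos N with h0 | h0
  · exfalso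
    rw [h0] at h4
    have h5 : (Finset.range M).filter (fun b => Act r s b) = ∅ := by
      apply Finset.filter_eq_empty_iff.2
      intro b hb hact
      have h6 := (Finset.sum_eq_zero_iff.1 h4.symm) ((r + 1) * b)
        (Finset.mem_range.2 ((Nat.mul_lt_mul_left (Nat.succ_pos r)).2 (Finset.mem_range.1 hb)))
      have h7 := Pool.Agent.Helper406.Rec.Lam_pos ((r + 1) * b)
      rw [hact.1] at h6
      omega
    rw [h5] at h3
    simp at h3
  · exact h0

lemma mp_zpw {X : Type u} [MeasurableSpace X] {μ : Measure X} (T : X ≃ᵐ X)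
    (hT : MeasurePreserving T μ μ) (n : ℤ) : MeasurePreserving (zpw T n) μ μ := by
  unfold zpw
  induction n using Int.induction_on with
  | zero => simpa using MeasurePreserving.id μ
  | succ i ih =>
    rw [zpow_add_one]
    exact ih.comp hT
  | pred i ih =>
    rw [zpow_sub_one]
    exact ih.comp (hT.symm T)

/-- the action generated by a transformation -/
def act {X : Type u} [MeasurableSpace X] {μ : Measure X} (T : X ≃ᵐ X)
    (hT : MeasurePreserving T μ μ) : ZAct μ where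
  P n x := zpw T (-n) x
  zero x := by simp [zpw]
  add j k x := by
    unfold zpw
    rw [neg_add, zpow_add]
    rfl
  mp n := mp_zpw T hT (-n)

lemma mem_image {X : Type u} [MeasurableSpace X] (T : X ≃ᵐ X) (m : ℤ) (A : Set X) (x : X) :
    x ∈ (zpw T m) '' A ↔ zpw T (-m) x ∈ A := by
  rw [Equiv.image_eq_preimage_symm]
  unfold zpw
  rw [zpow_neg]
  rfl

theorem kRecurrence (r : ℕ) : IsSetOfRecurrence.{u} (r + 2) (digitSet (r + 2)) := by
  intro X _ μ _ T hT A hA hpos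
  obtain ⟨N, hN, hpos'⟩ := positivity r (act T hT) hA hpos
  refine ⟨(N : ℤ), (mem_digitSet r _).2 ⟨N, hN, rfl⟩, ?_, ?_⟩
  · have := inS_pos hN
    exact_mod_cast this.ne'
  · have h1 : {x | ∀ j : Fin (r + 2 + 1), (act T hT).P (((j : ℕ) : ℤ) * (N : ℤ)) x ∈ A} ⊆
        ⋂ j ∈ Finset.range (r + 2 + 1), (zpw T ((j : ℤ) * (N : ℤ))) '' A := by
      intro x hx
      simp only [Set.mem_iInter, Finset.mem_range]
      intro j hj
      rw [mem_image]
      exact hx ⟨j, hj⟩
    refine lt_of_lt_of_le ?_ (measure_mono h1)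
    unfold nuK Measure.real at hpos'
    exact (ENNReal.toReal_pos_iff.1 hpos').1

/-- **Q2 has a negative answer for every `k ≥ 2`.** -/
theorem result (k : ℕ) (hk : 2 ≤ k) :
    IsSetOfRecurrence.{u} k (digitSet k) ∧
    ∃ (X : Type) (_ : MeasurableSpace X) (_ : StandardBorelSpace X) (μ : Measure X)
      (_ : IsProbabilityMeasure μ) (T : Fin k → X ≃ᵐ X) (A : Set X),
      (∀ i, MeasurePreserving (T i) μ μ) ∧ (∀ i j x, T i (T j x) = T j (T i x)) ∧
      MeasurableSet A ∧ 0 < μ A ∧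
      ∀ n ∈ digitSet k, n ≠ 0 → μ (A ∩ ⋂ i, (zpw (T i) n) '' A) = 0 := by
  obtain ⟨r, rfl⟩ : ∃ r, k = r + 2 := ⟨k - 2, by omega⟩
  refine ⟨kRecurrence r, ?_⟩
  obtain ⟨μ, hμ, h1, h2, h3⟩ := negative r
  refine ⟨Om (r + 2), inferInstance, inferInstance, μ, hμ, fun i => shf (Pi.single i 1), cyl 0,
    fun i => h1 _, fun i j x => shf_comm _ _ x, (cyl_clopen 0).1.measurableSet, h2, ?_⟩
  intro n hn _
  obtain ⟨N, hN, rfl⟩ := (mem_digitSet r n).1 hn
  have e1 : ∀ i : Fin (r + 2), (zpw (shf (Pi.single i 1)) (N : ℤ)) '' (cyl 0 : Set (Om (r + 2)))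
      = cyl (N • (Pi.single i 1)) := by
    intro i
    unfold zpw
    rw [zpow_natCast]
    exact shf_image (Pi.single i 1) N
  simp only [e1]
  exact h3 N hN

end Pool.Agent.Results.MP_74ad1e_an.CommutingTuplesFail
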